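import Pool.Agent.Y863.IA.Sub
import Pool.Agent.Y863.AA.Msz
import Pool.Agent.Y863.AA.Defs

/-! Project IA (helper863): almost all even differences with both indices in prescribed residue classes. -/

set_option autoImplicit false
open Filter Topology Finset

namespace Pool.Agent.Y863.IA

open Pool.Agent.Y827.RO Pool.Agent.Y827.IX Pool.Agent.Y863.AA

/-- `3` if `3 ∣ k`, otherwise `4` -/
def R3 (k : ℕ) : ℕ := if 3 ∣ k then 3 else 4

/-- the multipliers of the four classes -/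
def G3 (b : Prop) [Decidable b] (g : Fin 4) : ℕ := if b then g.1 else if g.1 ≤ 1 then g.1 else g.1 + 1

theorem G3_lt (b : Prop) [Decidable b] {g g' : Fin 4} (h : g < g') : G3 b g < G3 b g' := by
  have h' : g.1 < g'.1 := h
  unfold G3
  split_ifs <;> omega

theorem G3_sub (c : ℕ) (g g' : Fin 4) : G3 (3 ∣ c) g' - G3 (3 ∣ c) g ≤ R3 c := by
  have h1 := g.2
  have h2 := g'.2
  unfold G3 R3
  split_ifs <;> omega

/-- admissibility at the small primes -/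
theorem adm_small (c p : ℕ) (hp : p.Prime) : ∃ z : ℤ, ∀ g : Fin 4,
    ¬ (p : ℤ) ∣ z + 2 * (G3 (3 ∣ c) g * c) := by
  by_cases h2 : p = 2
  · subst h2
    refine ⟨1, fun g h => ?_⟩
    have h' : (2 : ℤ) ∣ 1 + 2 * ((G3 (3 ∣ c) g : ℤ) * c) := by exact_mod_cast h
    omega
  by_cases h3 : p = 3
  · subst h3
    by_cases hc : 3 ∣ c
    · obtain ⟨k, rfl⟩ := hc
      refine ⟨1, fun g h => ?_⟩
      have e : (1 : ℤ) + 2 * ((G3 (3 ∣ 3 * k) g : ℤ) * (3 * k : ℕ)) =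
          1 + 3 * (2 * ((G3 (3 ∣ 3 * k) g : ℤ) * k)) := by push_cast; ring
      rw [e] at h
      have h' : (3 : ℤ) ∣ 1 + 3 * (2 * ((G3 (3 ∣ 3 * k) g : ℤ) * k)) := by exact_mod_cast h
      omega
    · refine ⟨2 * c, fun g h => ?_⟩
      have hc' : ¬ (3 : ℤ) ∣ c := by exact_mod_cast hc
      have h' : (3 : ℤ) ∣ 2 * c + 2 * ((G3 (3 ∣ c) g : ℤ) * c) := by exact_mod_cast h
      have hg : G3 (3 ∣ c) g = 0 ∨ G3 (3 ∣ c) g = 1 ∨ G3 (3 ∣ c) g = 3 ∨ G3 (3 ∣ c) g = 4 := by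
        have h1 := g.2
        unfold G3
        rw [if_neg hc]
        split_ifs <;> omega
      rcases hg with hg | hg | hg | hg <;> rw [hg] at h' <;> push_cast at h' <;> omega
  have h5 : 4 < p := by
    have := hp.two_le
    have h4 : p ≠ 4 := by rintro rfl; exact absurd hp (by norm_num)
    omega
  have h1 : ¬ (p : ℤ) ∣ 1 := by
    intro h
    have := Int.le_of_dvd one_pos h
    omega
  obtain ⟨z, hz⟩ := avoid (fun _ : Fin 4 => (1 : ℤ)) (fun g => 2 * ((G3 (3 ∣ c) g : ℤ) * c)) hp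
    (fun _ => h1) (by rw [Fintype.card_fin]; exact h5)
  refine ⟨z, fun g h => hz g ?_⟩
  rwa [one_mul]

/-- the divisors of `12` -/
theorem q12 {d : ℕ} (h1 : 1 ≤ d) (h2 : d ≤ 4) : ∃ q : ℕ, q * d = 12 ∧ q ≤ 12 := by
  interval_cases d
  · exact ⟨12, by norm_num, by norm_num⟩
  · exact ⟨6, by norm_num, by norm_num⟩
  · exact ⟨4, by norm_num, by norm_num⟩
  · exact ⟨3, by norm_num, by norm_num⟩

theorem core (w : ℕ) (hw : 0 < w) : ∃ J : ℕ, ∀ ε : ℝ, 0 < ε → ∃ L : ℕ, ∀ r r' T : ℕ, L ≤ T →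
    ∀ u : ℕ, ({k : ℕ | (u < k ∧ k ≤ u + T) ∧ ∀ j : ℕ, 1 ≤ j → j ≤ R3 k →
      ¬ IG w r r' J (2 * (j * k))}.ncard : ℝ) ≤ ε * T := by
  classical
  obtain ⟨m, hm⟩ : ∃ m, m = 36 * w + 1 := ⟨_, rfl⟩
  obtain ⟨M', hM'⟩ : ∃ M', M' = m + 4 * w := ⟨_, rfl⟩
  have h1 : 1 ≤ 4 * m := by omega
  have h2 : (18 / 5 : ℝ) * M' < (4 * m : ℕ) := by
    rw [hM', hm]
    push_cast
    linarith
  obtain ⟨K, hK, hQ⟩ := blockE (4 * m) M' h1 h2
  have hmK : 1 ≤ m * K := Nat.mul_pos (by omega) hK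
  have hJ4 : 4 ≤ 4 * m * K := by rw [mul_assoc]; omega
  refine ⟨4 * m * K, fun ε hε => ?_⟩
  obtain ⟨P, hP⟩ : ∃ P, P = (4 * m * K).factorial := ⟨_, rfl⟩
  have hP0 : 1 ≤ P := by rw [hP]; exact Nat.factorial_pos _
  have hPd : ∀ p, 0 < p → p ≤ 4 * m * K → p ∣ P := by
    intro p h3 h4
    rw [hP]
    exact Nat.dvd_factorial h3 h4
  obtain ⟨W, hW⟩ : ∃ W, W = P * 12 * (m * K) := ⟨_, rfl⟩
  obtain ⟨n, hn, hs⟩ := msz (Fin (2 * W + 1)) ε hε
  refine ⟨n * W + 1, fun r r' T hT u => ?_⟩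
  by_contra hcon
  push Not at hcon
  obtain ⟨B, hB⟩ : ∃ B : Finset ℕ, B = (Ioc 0 T).filter (fun b => ∀ j : ℕ, 1 ≤ j →
    j ≤ R3 (u + b) → ¬ IG w r r' (4 * m * K) (2 * (j * (u + b)))) := ⟨_, rfl⟩
  have hBc : ε * T ≤ B.card := by
    refine hcon.le.trans ?_
    rw [Nat.cast_le]
    have h3 : {k : ℕ | (u < k ∧ k ≤ u + T) ∧ ∀ j : ℕ, 1 ≤ j → j ≤ R3 k →
        ¬ IG w r r' (4 * m * K) (2 * (j * k))} ⊆ ((B.image (fun b => u + b) : Finset ℕ) : Set ℕ) := by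
      rintro k ⟨⟨h4, h5⟩, h6⟩
      rw [mem_coe, mem_image]
      refine ⟨k - u, ?_, by omega⟩
      rw [hB, mem_filter, mem_Ioc]
      have e : u + (k - u) = k := by omega
      rw [e]
      exact ⟨by omega, h6⟩
    refine (Set.ncard_le_ncard h3 (finite_toSet _)).trans ?_
    rw [Set.ncard_coe_finset]
    exact card_image_le
  obtain ⟨x, l, hl1, -, hx⟩ := hs (fun a => ((a : ℕ) : ℤ) - W) W (fun a => by
      have := a.2
      rw [abs_le]
      constructor <;> omega) T (by omega) (by omega) B (by rw [hB]; exact filter_subset _ _) hBc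
  have hx' : ∀ v : ℤ, |v| ≤ W → ∃ b ∈ B, x + l * v = (b : ℤ) := by
    intro v hv
    have hv' := abs_le.1 hv
    obtain ⟨b, hb, h⟩ := hx ⟨(v + W).toNat, by omega⟩
    refine ⟨b, hb, ?_⟩
    rw [← h]
    have e : (((v + W).toNat : ℕ) : ℤ) = v + W := by omega
    show x + l * v = x + l * ((((v + W).toNat : ℕ) : ℤ) - W)
    rw [e]
    ring
  obtain ⟨c0, hc0, hc0'⟩ := hx' 0 (by simp)
  rw [mul_zero, add_zero] at hc0'
  obtain ⟨c, hc⟩ : ∃ c, c = u + c0 := ⟨_, rfl⟩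
  have hcx : (c : ℤ) = u + x := by rw [hc, hc0']; push_cast; ring
  -- the shifts
  obtain ⟨H, hH⟩ : ∃ H : Fin 4 → Fin (m * K) → ℕ,
      H = fun (g : Fin 4) (i : Fin (m * K)) => 2 * (G3 (3 ∣ c) g * c + 12 * l * P * (i : ℕ)) := ⟨_, rfl⟩
  have hHi : ∀ (g : Fin 4) (i : Fin (m * K)), H g i = 2 * (G3 (3 ∣ c) g * c + 12 * l * P * (i : ℕ)) := fun g i => by rw [hH]
  have h3P : 3 ∣ P := hPd 3 (by norm_num) (by omega)
  have key : ∀ g g' : Fin 4, g < g' → ∀ i i' : Fin (m * K), ∃ j k : ℕ, 1 ≤ j ∧ j ≤ R3 k ∧ 0 < k ∧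
      (¬ IG w r r' (4 * m * K) (2 * (j * k))) ∧ H g' i' = H g i + 2 * (j * k) := by
    intro g g' hlt i i'
    have hG := G3_lt (3 ∣ c) hlt
    have hGs := G3_sub c g g'
    obtain ⟨d, hd⟩ : ∃ d, d = G3 (3 ∣ c) g' - G3 (3 ∣ c) g := ⟨_, rfl⟩
    rw [← hd] at hGs
    have hR4 : R3 c ≤ 4 := by unfold R3; split_ifs <;> omega
    obtain ⟨q, hq, hq12⟩ := q12 (d := d) (by omega) (by omega)
    have hvb : |((P * q : ℕ) : ℤ) * ((i' : ℕ) - (i : ℕ) : ℤ)| ≤ W := by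
      rw [abs_mul, Nat.abs_cast, hW]
      have h3 : |((i' : ℕ) - (i : ℕ) : ℤ)| ≤ (m * K : ℕ) := by
        have h4 := i.2
        have h5 := i'.2
        rw [abs_le]
        constructor <;> omega
      have h4 : ((P * q : ℕ) : ℤ) ≤ ((P * 12 : ℕ) : ℤ) := by
        exact_mod_cast Nat.mul_le_mul_left P hq12
      calc ((P * q : ℕ) : ℤ) * |((i' : ℕ) - (i : ℕ) : ℤ)| ≤ ((P * 12 : ℕ) : ℤ) * (m * K : ℕ) :=
            mul_le_mul h4 h3 (abs_nonneg _) (Nat.cast_nonneg _)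
        _ = ((P * 12 * (m * K) : ℕ) : ℤ) := by push_cast; ring
    obtain ⟨b, hb, hb'⟩ := hx' _ hvb
    rw [hB, mem_filter, mem_Ioc] at hb
    have hub : ((u + b : ℕ) : ℤ) = c + l * (((P * q : ℕ) : ℤ) * ((i' : ℕ) - (i : ℕ) : ℤ)) := by
      push_cast
      push_cast at hb'
      rw [hcx, ← hb']
      ring
    have hR : R3 (u + b) = R3 c := by
      have h3 : 3 ∣ u + b ↔ 3 ∣ c := by
        have h4 : (3 : ℤ) ∣ ((P * q : ℕ) : ℤ) := by
          exact_mod_cast Dvd.dvd.mul_right h3P q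
        have h5 : (3 : ℤ) ∣ ((u + b : ℕ) : ℤ) ↔ (3 : ℤ) ∣ (c : ℤ) := by
          rw [hub]
          exact dvd_add_left (Dvd.dvd.mul_left (Dvd.dvd.mul_right h4 _) _)
        exact_mod_cast h5
      unfold R3
      by_cases h4 : 3 ∣ c
      · rw [if_pos h4, if_pos (h3.2 h4)]
      · rw [if_neg h4, if_neg (fun h => h4 (h3.1 h))]
    refine ⟨d, u + b, by omega, by rw [hR]; exact hGs, by omega, hb.2 d (by omega) (by
      rw [hR]; exact hGs), ?_⟩
    have hq' : (q : ℤ) * d = 12 := by exact_mod_cast hq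
    have hd' : (d : ℤ) = G3 (3 ∣ c) g' - G3 (3 ∣ c) g := by omega
    have h6 : (H g' i' : ℤ) = H g i + 2 * (d * ((u + b : ℕ) : ℤ)) := by
      rw [hub, hHi, hHi]
      push_cast
      have e : (d : ℤ) * (c + l * (P * q * ((i' : ℕ) - (i : ℕ) : ℤ))) =
          d * c + l * P * (q * d) * ((i' : ℕ) - (i : ℕ) : ℤ) := by ring
      rw [e, hq', hd']
      ring
    exact_mod_cast h6
  have hpos : ∀ g g' : Fin 4, g < g' → ∀ i i' : Fin (m * K), H g i < H g' i' := by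
    intro g g' hlt i i'
    obtain ⟨j, k, h3, _, h4, _, h5⟩ := key g g' hlt i i'
    rw [h5]
    have : 0 < j * k := Nat.mul_pos (by omega) h4
    omega
  have hsep : ∀ g g', g ≠ g' → (∀ i i', H g i < H g' i') ∨ (∀ i i', H g' i' < H g i) := by
    intro g g' hne
    rcases lt_or_gt_of_ne hne with h | h
    · exact Or.inl fun i i' => hpos g g' h i i'
    · exact Or.inr fun i i' => hpos g' g h i' i
  have hinj : ∀ g i i', H g i = H g i' → i = i' := by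
    intro g i i' h
    rw [hHi, hHi] at h
    have h3 : 12 * l * P * (i : ℕ) = 12 * l * P * (i' : ℕ) := by omega
    have h4 : 0 < 12 * l * P := by positivity
    exact Fin.ext (Nat.eq_of_mul_eq_mul_left h4 h3)
  have hadm : ∀ p : ℕ, p.Prime → ∃ z : ℤ, ∀ g i, ¬ (p : ℤ) ∣ z + (H g i : ℤ) := by
    intro p hp
    by_cases hle : p ≤ 4 * m * K
    · obtain ⟨z, hz⟩ := adm_small c p hp
      refine ⟨z, fun g i h => hz g ?_⟩
      have h3 : (p : ℤ) ∣ 2 * (12 * l * P * i : ℕ) := by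
        have h4 : p ∣ 12 * l * P * i :=
          Dvd.dvd.mul_right (Dvd.dvd.mul_left (hPd p hp.pos hle) _) _
        exact Dvd.dvd.mul_left (by exact_mod_cast h4) _
      have h4 : z + (H g i : ℤ) = (z + 2 * ((G3 (3 ∣ c) g : ℤ) * c)) +
          2 * ((12 * l * P * i : ℕ) : ℤ) := by
        rw [hHi]
        push_cast
        ring
      rw [h4] at h
      exact (dvd_add_left h3).1 h
    · have h1' : ¬ (p : ℤ) ∣ 1 := by
        intro h
        have := Int.le_of_dvd one_pos h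
        omega
      obtain ⟨z, hz⟩ := avoid (fun _ : Fin 4 × Fin (m * K) => (1 : ℤ))
        (fun y => (H y.1 y.2 : ℤ)) hp (fun _ => h1') (by
          rw [Fintype.card_prod, Fintype.card_fin, Fintype.card_fin, ← mul_assoc]
          omega)
      refine ⟨z, fun g i h => hz (g, i) ?_⟩
      rwa [one_mul]
  obtain ⟨S, hS, hSB⟩ := subclA 4 m K w M' hw hQ H hinj hsep hadm
  have hS2 : 1 < S.card := by
    by_contra hle
    have h3 : S.card * m ≤ 1 * m := Nat.mul_le_mul_right m (by omega)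
    omega
  obtain ⟨g, hg, g', hg', hne⟩ := Finset.one_lt_card.1 hS2
  have fin : ∀ g g' : Fin 4, g ∈ S → g' ∈ S → g < g' → False := by
    intro g g' hg hg' hlt
    obtain ⟨i, i', hI⟩ := hSB g hg g' hg' (fun i i' => hpos g g' hlt i i') r r'
    obtain ⟨j, k, _, _, _, h3, h4⟩ := key g g' hlt i i'
    rw [h4, Nat.add_sub_cancel_left] at hI
    exact h3 hI
  rcases lt_or_gt_of_ne hne with h | h
  · exact fin g g' hg hg' h
  · exact fin g' g hg' hg h

end Pool.Agent.Y863.IA
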