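import Pool.Agent.Y827.IX.Ind

/-! Project IA (helper863): almost all even differences with both indices in prescribed residue classes;
the lemma on subclasses. -/

set_option autoImplicit false
open Filter Topology Finset

namespace Pool.Agent.Y863.IA

open Pool.Agent.Y827.RO Pool.Agent.H947R3.GM Pool.Agent.W142.TF Pool.Agent.W142.TB Pool.Agent.Y827.IX

/-- Classes divided into subclasses (helper827's `Pool.Agent.Y827.IX.subcl`, with an arbitrary admissible family of
shifts instead of shifts divisible by the small primes). -/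
theorem subclA (n m K w M' : ℕ) (hw : 0 < w)
    (hQ : ∀ N a : ℕ, 0 < N → a.Coprime N →
      ∀ H : Fin (n * m) → Fin K → ℕ, AdmN N H →
      ∃ (Q r M : ℕ) (E : Finset (Fin (n * m) × Fin K)), 0 < Q ∧ N ∣ Q ∧ r ≡ a [MOD N] ∧
        (∀ g i, N * H g i ≤ M) ∧ M' + 1 ≤ (E.image Prod.fst).card ∧
        Nar (fun m => (∀ g i, (Q * m + r + N * H g i).Prime ↔ (g, i) ∈ E) ∧
          ∀ t ≤ M, (∀ g i, N * H g i ≠ t) → ¬ (Q * m + r + t).Prime))
    (H : Fin n → Fin (m * K) → ℕ) (hHinj : ∀ g i i', H g i = H g i' → i = i')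
    (hsep : ∀ g g', g ≠ g' → (∀ i i', H g i < H g' i') ∨ (∀ i i', H g' i' < H g i))
    (hdiv : ∀ p : ℕ, p.Prime → ∃ z : ℤ, ∀ g i, ¬ (p : ℤ) ∣ z + (H g i : ℤ)) :
    ∃ S : Finset (Fin n), M' + 1 ≤ S.card * m + n * w ∧ ∀ g ∈ S, ∀ g' ∈ S, (∀ i i', H g i < H g' i') →
      ∀ r r', ∃ i i', IG w r r' (n * m * K) (H g' i' - H g i) := by
  classical
  -- the subclasses
  let cl : Fin (n * m) → Fin n := fun c => (finProdFinEquiv.symm c).1
  let H' : Fin (n * m) → Fin K → ℕ := fun c j => H (cl c) (finProdFinEquiv ((finProdFinEquiv.symm c).2, j))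
  have hH'e : ∀ c j c' j', H' c j = H' c' j' → c = c' ∧ j = j' := by
    intro c j c' j' h
    have h1 : cl c = cl c' := by
      by_contra hne
      rcases hsep _ _ hne with h2 | h2
      · exact absurd h (h2 _ _).ne
      · exact absurd h (h2 _ _).ne'
    have h2 : (finProdFinEquiv ((finProdFinEquiv.symm c).2, j) : Fin (m * K)) =
        finProdFinEquiv ((finProdFinEquiv.symm c').2, j') := by
      apply hHinj (cl c)
      have h3 : H (cl c) (finProdFinEquiv ((finProdFinEquiv.symm c).2, j)) =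
          H (cl c') (finProdFinEquiv ((finProdFinEquiv.symm c').2, j')) := h
      rw [← h1] at h3
      exact h3
    have h3 := finProdFinEquiv.injective h2
    rw [Prod.mk.injEq] at h3
    refine ⟨finProdFinEquiv.symm.injective (Prod.ext h1 h3.1), h3.2⟩
  have hadm : AdmN 1 H' := by
    refine ⟨fun x y h => ?_, fun p hp _ => ?_⟩
    · have := hH'e _ _ _ _ h
      exact Prod.ext this.1 this.2
    · obtain ⟨z, hz⟩ := hdiv p hp
      exact ⟨z, fun g i => hz _ _⟩
  obtain ⟨Q, r₀, M, E, hQ0, -, -, hM, hE, hnar⟩ := hQ 1 1 one_pos (Nat.coprime_one_right 1) H' hadm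
  simp only [one_mul] at hM hnar
  set P : Finset ℕ := E.image (fun x => H' x.1 x.2) with hP
  have hPM : ∀ t ∈ P, t ≤ M := by
    intro t ht
    obtain ⟨x, _, rfl⟩ := mem_image.1 ht
    exact hM _ _
  have hnar' : Nar (fun m => ∀ t ≤ M, (Q * m + r₀ + t).Prime ↔ t ∈ P) := by
    refine hnar.mono ?_
    rintro k ⟨h1, h2⟩ t ht
    by_cases hex : ∃ g i, H' g i = t
    · obtain ⟨g, i, rfl⟩ := hex
      rw [h1 g i]
      constructor
      · intro h
        exact mem_image.2 ⟨(g, i), h, rfl⟩
      · intro h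
        obtain ⟨x, hx, he⟩ := mem_image.1 h
        obtain ⟨e1, e2⟩ := hH'e _ _ _ _ he
        have : x = (g, i) := Prod.ext e1 e2
        rwa [← this]
    · push Not at hex
      constructor
      · intro h
        exact absurd h (h2 t ht hex)
      · intro h
        obtain ⟨x, _, he⟩ := mem_image.1 h
        exact absurd he (hex _ _)
  have hPc : P.card ≤ n * m * K := by
    refine card_image_le.trans ((card_le_univ _).trans (le_of_eq ?_))
    rw [Fintype.card_prod, Fintype.card_fin, Fintype.card_fin]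
  -- the clusters
  let R : Fin n → Finset ℕ := fun g => (E.filter (fun x => cl x.1 = g)).image (fun x => H' x.1 x.2)
  have hRP : ∀ g, R g ⊆ P := fun g => image_subset_image (filter_subset _ _)
  have hRH : ∀ g, ∀ t ∈ R g, ∃ i, H g i = t := by
    intro g t ht
    obtain ⟨x, hx, rfl⟩ := mem_image.1 ht
    obtain ⟨_, rfl⟩ := mem_filter.1 hx
    exact ⟨_, rfl⟩
  have hPR : ∀ t ∈ P, ∃ g, t ∈ R g := by
    intro t ht
    obtain ⟨x, hx, rfl⟩ := mem_image.1 ht
    exact ⟨cl x.1, mem_image.2 ⟨x, mem_filter.2 ⟨hx, rfl⟩, rfl⟩⟩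
  have hconv : ∀ g, ∀ x ∈ P, x ∉ R g → (∀ y ∈ R g, x < y) ∨ (∀ y ∈ R g, y < x) := by
    intro g x hx hxg
    obtain ⟨g', hg'⟩ := hPR x hx
    have hne : g' ≠ g := by
      rintro rfl
      exact hxg hg'
    obtain ⟨i, rfl⟩ := hRH g' x hg'
    rcases hsep g' g hne with h | h
    · left
      intro y hy
      obtain ⟨j, rfl⟩ := hRH g y hy
      exact h _ _
    · right
      intro y hy
      obtain ⟨j, rfl⟩ := hRH g y hy
      exact h _ _
  -- the number of elements of a cluster
  have hRc : ∀ g, ((E.image Prod.fst).filter (fun c => cl c = g)).card ≤ (R g).card := by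
    intro g
    have h1 : ((E.image Prod.fst).filter (fun c => cl c = g)).card ≤ (E.filter (fun x => cl x.1 = g)).card := by
      have h2 : (E.image Prod.fst).filter (fun c => cl c = g) ⊆ (E.filter (fun x => cl x.1 = g)).image Prod.fst := by
        intro c hc
        obtain ⟨h3, h4⟩ := mem_filter.1 hc
        obtain ⟨x, hx, rfl⟩ := mem_image.1 h3
        exact mem_image.2 ⟨x, mem_filter.2 ⟨hx, h4⟩, rfl⟩
      exact (card_le_card h2).trans card_image_le
    refine h1.trans (le_of_eq ?_)
    symm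
    apply card_image_of_injective
    intro x y h
    have := hH'e _ _ _ _ h
    exact Prod.ext this.1 this.2
  have hclm : ∀ g, ((E.image Prod.fst).filter (fun c => cl c = g)).card ≤ m := by
    intro g
    have h1 : ((E.image Prod.fst).filter (fun c => cl c = g)).card ≤ (univ : Finset (Fin m)).card := by
      refine card_le_card_of_injOn (fun c => (finProdFinEquiv.symm c).2) (fun _ _ => mem_coe.2 (mem_univ _)) ?_
      intro x hx y hy h
      rw [mem_coe, mem_filter] at hx hy
      apply finProdFinEquiv.symm.injective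
      exact Prod.ext (hx.2.trans hy.2.symm) h
    rwa [card_univ, Fintype.card_fin] at h1
  refine ⟨univ.filter (fun g => w ≤ ((E.image Prod.fst).filter (fun c => cl c = g)).card), ?_, ?_⟩
  · refine hE.trans ?_
    rw [card_eq_sum_card_fiberwise (f := cl) (t := univ) (fun _ _ => mem_coe.2 (mem_univ _))]
    rw [← sum_filter_add_sum_filter_not univ (fun g => w ≤ ((E.image Prod.fst).filter (fun c => cl c = g)).card)]
    apply Nat.add_le_add
    · refine (sum_le_card_nsmul _ _ m fun g _ => hclm g).trans (le_of_eq ?_)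
      rw [smul_eq_mul]
    · refine (sum_le_card_nsmul _ _ w fun g hg => ?_).trans ?_
      · exact (not_le.1 (mem_filter.1 hg).2).le
      · rw [smul_eq_mul]
        apply Nat.mul_le_mul_right
        refine (card_filter_le _ _).trans (le_of_eq ?_)
        rw [card_univ, Fintype.card_fin]
  · intro g hg g' hg' hlt r r'
    obtain ⟨t, ht, t', ht', hIG⟩ := pair_of hQ0 hw P hPM hnar' (R g) (R g') (hRP g) (hRP g')
      ((mem_filter.1 hg).2.trans (hRc g)) ((mem_filter.1 hg').2.trans (hRc g')) (hconv g) (hconv g')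
      (fun x hx y hy => by
        obtain ⟨i, rfl⟩ := hRH g x hx
        obtain ⟨j, rfl⟩ := hRH g' y hy
        exact hlt _ _) r r'
    obtain ⟨i, rfl⟩ := hRH g t ht
    obtain ⟨i', rfl⟩ := hRH g' t' ht'
    obtain ⟨s, h1, h2, h3⟩ := hIG
    exact ⟨i, i', s, h1, h2.trans hPc, h3⟩

end Pool.Agent.Y863.IA
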